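import Pool.Agent.H91.BD.Kern

/-!
Row WC of the board bdc_modules: convolution of two ball weights.
-/

open MeasureTheory
open scoped ENNReal NNReal

namespace Pool.Agent.H91.BD

open Pool.Agent.H93.BD

theorem pf_WC : T_WC := by
  intro m
  obtain ⟨C1, hC1, h1⟩ := kk_conv (V := E m) volume (N := m + 2) (finrank_E m) (by omega)
  obtain ⟨C2, hC2, h2⟩ := kk_conv (V := ℝ) volume (N := m + 2) (Module.finrank_self ℝ) (by omega)
  refine ⟨C1 * C2, fun R R' hR' hRR x => ?_⟩
  have hR : 0 < R := lt_of_lt_of_le hR' hRR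
  have hvol : (volume : Measure (X m)) = (volume : Measure (E m)).prod (volume : Measure ℝ) := rfl
  unfold cv
  have e1 : ∀ z : X m, kw m R' z * kw m R (x - z) =
      (kk m (m + 2) R' z.1 * kk m (m + 2) R (x.1 - z.1)) *
        (kk 1 (m + 2) R' z.2 * kk 1 (m + 2) R (x.2 - z.2)) := by
    intro z
    rw [kw_eq m hR', kw_eq m hR, Prod.fst_sub, Prod.snd_sub]
    ring
  rw [lintegral_congr e1, hvol]
  have hm1 : Measurable fun y : E m => kk m (m + 2) R' y * kk m (m + 2) R (x.1 - y) :=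
    (kk_meas m (m + 2) R').mul ((kk_meas m (m + 2) R).comp (measurable_const.sub measurable_id))
  have hm2 : Measurable fun w : ℝ => kk 1 (m + 2) R' w * kk 1 (m + 2) R (x.2 - w) :=
    (kk_meas 1 (m + 2) R').mul ((kk_meas 1 (m + 2) R).comp (measurable_const.sub measurable_id))
  rw [lintegral_prod_mul (f := fun y : E m => kk m (m + 2) R' y * kk m (m + 2) R (x.1 - y))
    (g := fun w : ℝ => kk 1 (m + 2) R' w * kk 1 (m + 2) R (x.2 - w))
    hm1.aemeasurable hm2.aemeasurable]
  calc (∫⁻ y : E m, kk m (m + 2) R' y * kk m (m + 2) R (x.1 - y)) *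
        ∫⁻ w : ℝ, kk 1 (m + 2) R' w * kk 1 (m + 2) R (x.2 - w)
      ≤ (ENNReal.ofReal C1 * kk m (m + 2) R x.1) * (ENNReal.ofReal C2 * kk 1 (m + 2) R x.2) := by
        gcongr
        · exact h1 R R' hR' hRR x.1
        · exact h2 R R' hR' hRR x.2
    _ = ENNReal.ofReal (C1 * C2) * kw m R x := by
        rw [kw_eq m hR, ENNReal.ofReal_mul hC1]
        ring

end Pool.Agent.H91.BD
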