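import Pool.Agent.H91.BD.Kern

/-!
Row WM of the board bdc_modules: total mass of the weights.
-/

open MeasureTheory
open scoped ENNReal NNReal

namespace Pool.Agent.H91.BD

open Pool.Agent.H93.BD

theorem pf_WM : T_WM := by
  intro m N hN
  obtain ⟨C1, hC1, h1⟩ := kk_mass (V := E m) volume (N := N) (finrank_E m) (by omega)
  obtain ⟨C2, hC2, h2⟩ := kk_mass (V := ℝ) volume (N := N) (Module.finrank_self ℝ) (by omega)
  refine ⟨C1 * C2, fun r1 r2 hr1 hr2 c => ?_⟩
  have hm : Measurable (gw m N r1 r2 c) := gw_meas m N r1 r2 c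
  have hvol : (volume : Measure (X m)) = (volume : Measure (E m)).prod (volume : Measure ℝ) := rfl
  rw [hvol, lintegral_prod_symm _ hm.aemeasurable]
  have hin : ∀ w : ℝ, ∫⁻ y : E m, gw m N r1 r2 c (y, w) =
      ENNReal.ofReal C1 * kk 1 N r2 w := by
    intro w
    have e1 : ∀ y : E m, gw m N r1 r2 c (y, w) = kk m N r1 (y + (2 * w) • c) * kk 1 N r2 w :=
      fun y => gw_eq m N hr1 hr2 c (y, w)
    rw [lintegral_congr e1]
    have hm1 : Measurable fun y : E m => kk m N r1 (y + (2 * w) • c) :=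
      (kk_meas m N r1).comp (measurable_id.add_const _)
    rw [lintegral_mul_const _ hm1, lintegral_add_right_eq_self (fun y => kk m N r1 y), h1 r1 hr1]
  rw [lintegral_congr hin, lintegral_const_mul _ (kk_meas 1 N r2), h2 r2 hr2,
    ENNReal.ofReal_mul hC1]

end Pool.Agent.H91.BD
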