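import Pool.Agent.H91.BD.Kern

/-!
Row WP of the board bdc_modules: plank weight against ball weight.
-/

open MeasureTheory
open scoped ENNReal NNReal

namespace Pool.Agent.H91.BD

open Pool.Agent.H93.BD

theorem wp_real {A B K P Q s : ℝ} {n : ℕ} (hA : 1 ≤ A) (hB : 1 ≤ B) (hK : 1 ≤ K) (hP : 0 ≤ P)
    (hQ : 0 ≤ Q) (hs : 0 ≤ s) (hPA : P ≤ K * (A * B)) (hQB : Q ≤ B) :
    (s * ((A ^ (3 * n))⁻¹) * ((B ^ (3 * n))⁻¹)) * (P ^ n * Q ^ n) ≤
      K ^ n * (s * ((A ^ n)⁻¹) * ((B ^ n)⁻¹)) := by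
  have hA0 : 0 < A := by linarith
  have hB0 : 0 < B := by linarith
  have h1 : P ^ n * Q ^ n ≤ K ^ n * (A ^ n * B ^ (2 * n)) := by
    calc P ^ n * Q ^ n ≤ (K * (A * B)) ^ n * B ^ n := by gcongr
      _ = K ^ n * (A ^ n * B ^ (2 * n)) := by ring
  calc (s * ((A ^ (3 * n))⁻¹) * ((B ^ (3 * n))⁻¹)) * (P ^ n * Q ^ n)
      ≤ (s * ((A ^ (3 * n))⁻¹) * ((B ^ (3 * n))⁻¹)) * (K ^ n * (A ^ n * B ^ (2 * n))) := by
        gcongr
    _ = K ^ n * (s * ((A ^ (2 * n))⁻¹) * ((B ^ n)⁻¹)) := by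
        have e1 : A ^ (3 * n) = A ^ n * A ^ (2 * n) := by ring
        have e2 : B ^ (3 * n) = B ^ n * B ^ (2 * n) := by ring
        rw [e1, e2]
        field_simp
    _ ≤ K ^ n * (s * ((A ^ n)⁻¹) * ((B ^ n)⁻¹)) := by
        have : ((A ^ (2 * n))⁻¹) ≤ ((A ^ n)⁻¹) :=
          inv_anti₀ (by positivity) (pow_le_pow_right₀ hA (by omega))
        gcongr

theorem pf_WP : T_WM → T_WP := by
  intro hWM m R1
  obtain ⟨C, hC⟩ := hWM m (m + 2) le_rfl
  set K : ℝ := 1 + 2 * |R1| with hK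
  have hK1 : 1 ≤ K := by
    have := abs_nonneg R1
    linarith
  refine ⟨K ^ (m + 2) * C, fun S R hS hSR c hc x => ?_⟩
  have hS0 : 0 < S := by linarith
  have hSS : S ≤ S ^ 2 := by nlinarith
  have hS2 : 0 < S ^ 2 := by positivity
  have hR : 0 < R := by linarith
  have key : ∀ z : X m, pk m S c z * kw m R (x - z) ≤
      ENNReal.ofReal (K ^ (m + 2)) * kw m R x * gw m (m + 2) S (S ^ 2) c z := by
    intro z
    have h1 := kw_slow m R hR x (-z)
    rw [← sub_eq_add_neg, Prod.fst_neg, Prod.snd_neg, norm_neg, abs_neg] at h1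
    set A : ℝ := 1 + ‖z.1 + (2 * z.2) • c‖ / S with hA
    set B : ℝ := 1 + |z.2| / S ^ 2 with hB
    have hA1 : 1 ≤ A := by
      rw [hA]
      have : 0 ≤ ‖z.1 + (2 * z.2) • c‖ / S := by positivity
      linarith
    have hB1 : 1 ≤ B := by
      rw [hB]
      have : 0 ≤ |z.2| / S ^ 2 := by positivity
      linarith
    have hQ : 1 + |z.2| / R ≤ B := by
      rw [hB]
      gcongr
    have hP : 1 + ‖z.1‖ / R ≤ K * (A * B) := by
      have e1 : ‖z.1‖ ≤ ‖z.1 + (2 * z.2) • c‖ + 2 * |R1| * |z.2| := by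
        calc ‖z.1‖ = ‖(z.1 + (2 * z.2) • c) - (2 * z.2) • c‖ := by congr 1; abel
          _ ≤ ‖z.1 + (2 * z.2) • c‖ + ‖(2 * z.2) • c‖ := norm_sub_le _ _
          _ ≤ _ := by
              rw [norm_smul, Real.norm_eq_abs, abs_mul, abs_two]
              have hc' : ‖c‖ ≤ |R1| := hc.trans (le_abs_self R1)
              have h0 : 0 ≤ 2 * |z.2| := by positivity
              nlinarith [mul_le_mul_of_nonneg_left hc' h0]
      have e2 : ‖z.1 + (2 * z.2) • c‖ / R ≤ A - 1 := by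
        rw [hA, add_sub_cancel_left]
        gcongr
        linarith
      have e3 : |z.2| / R ≤ B - 1 := by linarith
      have e4 : ‖z.1‖ / R ≤ (A - 1) + 2 * |R1| * (B - 1) := by
        calc ‖z.1‖ / R ≤ (‖z.1 + (2 * z.2) • c‖ + 2 * |R1| * |z.2|) / R := by gcongr
          _ = ‖z.1 + (2 * z.2) • c‖ / R + 2 * |R1| * (|z.2| / R) := by ring
          _ ≤ _ := by
              have h0 : 0 ≤ 2 * |R1| := by positivity
              have := mul_le_mul_of_nonneg_left e3 h0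
              linarith
      have e5 : 0 ≤ |R1| := abs_nonneg R1
      have e6 : A ≤ A * B := by nlinarith
      have e7 : B ≤ A * B := by nlinarith
      rw [hK]
      nlinarith
    unfold pk gw
    rw [← hA, ← hB]
    calc ENNReal.ofReal ((S ^ m * S ^ 2)⁻¹ * (A ^ (3 * (m + 2)))⁻¹ * (B ^ (3 * (m + 2)))⁻¹) *
          kw m R (x - z)
        ≤ ENNReal.ofReal ((S ^ m * S ^ 2)⁻¹ * (A ^ (3 * (m + 2)))⁻¹ * (B ^ (3 * (m + 2)))⁻¹) *
          (ENNReal.ofReal ((1 + ‖z.1‖ / R) ^ (m + 2) * (1 + |z.2| / R) ^ (m + 2)) * kw m R x) := by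
          gcongr
      _ = ENNReal.ofReal (((S ^ m * S ^ 2)⁻¹ * (A ^ (3 * (m + 2)))⁻¹ * (B ^ (3 * (m + 2)))⁻¹) *
          ((1 + ‖z.1‖ / R) ^ (m + 2) * (1 + |z.2| / R) ^ (m + 2))) * kw m R x := by
          rw [← mul_assoc, ← ENNReal.ofReal_mul (by positivity)]
      _ ≤ ENNReal.ofReal (K ^ (m + 2) * ((S ^ m * S ^ 2)⁻¹ * (A ^ (m + 2))⁻¹ *
          (B ^ (m + 2))⁻¹)) * kw m R x := by
          refine mul_le_mul' (ENNReal.ofReal_le_ofReal ?_) le_rfl
          exact wp_real hA1 hB1 hK1 (by positivity) (by positivity) (by positivity) hP hQ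
      _ = _ := by
          rw [ENNReal.ofReal_mul (by positivity)]
          ring
  unfold cv
  calc ∫⁻ z, pk m S c z * kw m R (x - z)
      ≤ ∫⁻ z, ENNReal.ofReal (K ^ (m + 2)) * kw m R x * gw m (m + 2) S (S ^ 2) c z :=
        lintegral_mono key
    _ = ENNReal.ofReal (K ^ (m + 2)) * kw m R x * ∫⁻ z, gw m (m + 2) S (S ^ 2) c z :=
        lintegral_const_mul _ (gw_meas _ _ _ _ _)
    _ ≤ ENNReal.ofReal (K ^ (m + 2)) * kw m R x * ENNReal.ofReal C := by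
        gcongr
        exact hC S (S ^ 2) hS0 hS2 c
    _ = ENNReal.ofReal (K ^ (m + 2) * C) * kw m R x := by
        rw [ENNReal.ofReal_mul (by positivity)]
        ring

end Pool.Agent.H91.BD
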