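import Pool.Agent.H91.BD.Kern

/-!
Row AKW of the board bdc_modules: averages over parallelepipeds of transversal directions.
-/

open MeasureTheory
open scoped ENNReal NNReal

namespace Pool.Agent.H91.BD

open Pool.Agent.H93.BD

/-- `Am b` as a linear map -/
noncomputable def AmL {m : ℕ} (b : Fin (m + 1) → E m) : (Fin (m + 1) → ℝ) →ₗ[ℝ] X m where
  toFun := Am b
  map_add' s t := by
    unfold Am
    rw [← Finset.sum_add_distrib]
    refine Finset.sum_congr rfl fun i _ => ?_
    rw [Pi.add_apply, add_smul]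
  map_smul' r s := by
    unfold Am
    rw [Finset.smul_sum]
    refine Finset.sum_congr rfl fun i _ => ?_
    rw [Pi.smul_apply, smul_eq_mul, mul_smul, RingHom.id_apply]

theorem Tr_inj {m : ℕ} {Λ : ℝ} {b : Fin (m + 1) → E m} (h : Tr Λ b) :
    Function.Injective (AmL b) := by
  rw [injective_iff_map_eq_zero]
  intro s hs
  funext i
  have h1 := h s i
  have h2 : Am b s = 0 := hs
  rw [h2, norm_zero, mul_zero] at h1
  exact abs_eq_zero.mp (le_antisymm h1 (abs_nonneg _))

noncomputable def AmE {m : ℕ} {Λ : ℝ} {b : Fin (m + 1) → E m} (h : Tr Λ b) :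
    (Fin (m + 1) → ℝ) ≃L[ℝ] X m :=
  (LinearEquiv.ofInjectiveOfFinrankEq (AmL b) (Tr_inj h) (by
    simp [Module.finrank_prod])).toContinuousLinearEquiv

theorem AmE_apply {m : ℕ} {Λ : ℝ} {b : Fin (m + 1) → E m} (h : Tr Λ b) (s : Fin (m + 1) → ℝ) :
    AmE h s = Am b s := rfl

theorem haarX (m : ℕ) : (volume : Measure (X m)).IsAddHaarMeasure := by
  have h : (volume : Measure (X m)) = (volume : Measure (E m)).prod (volume : Measure ℝ) := rfl
  rw [h]
  infer_instance

theorem norm_vv_fst {m : ℕ} (c : E m) : ‖(vv c).1‖ = 2 * ‖c‖ := by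
  unfold vv
  rw [norm_smul]
  norm_num

theorem Am_fst {m : ℕ} (b : Fin (m + 1) → E m) (s : Fin (m + 1) → ℝ) :
    (Am b s).1 = ∑ i, s i • (vv (b i)).1 := by
  unfold Am
  rw [Prod.fst_sum]
  rfl

theorem Am_snd {m : ℕ} (b : Fin (m + 1) → E m) (s : Fin (m + 1) → ℝ) :
    (Am b s).2 = ∑ i, s i := by
  unfold Am
  rw [Prod.snd_sum]
  refine Finset.sum_congr rfl fun i _ => ?_
  simp [vv]

theorem pf_AKW : T_AKW := by
  intro m R1 Λ
  have hHaar := haarX m
  set B : Set (X m) := Metric.closedBall 0 1 with hB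
  set v : ℝ := (volume B).toReal with hv
  have hvtop : volume B ≠ ∞ := measure_closedBall_lt_top.ne
  have hvpos : 0 < v := by
    rw [hv]
    refine ENNReal.toReal_pos ?_ hvtop
    exact (Metric.measure_closedBall_pos volume 0 one_pos).ne'
  set D : ℝ := (1 + 2 * (m + 1) * |R1|) ^ (m + 2) * (1 + (m + 1)) ^ (m + 2) with hD
  have hD0 : 0 < D := by
    rw [hD]
    have := abs_nonneg R1
    positivity
  refine ⟨D * ((2 * |Λ|) ^ (m + 1) / v), fun b hb hT ρ hρ f hf x => ?_⟩
  have hbound : ∀ s ∈ Qc (m + 1) ρ,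
      1 ≤ ENNReal.ofReal (D * ρ ^ (m + 1)) * kw m ρ (-(Am b s)) := by
    intro s hs
    have hs' : ∀ i, |s i| ≤ ρ := by
      intro i
      rw [abs_le]
      exact ⟨hs.1 i, hs.2 i⟩
    have h1 : ‖(Am b s).1‖ / ρ ≤ 2 * (m + 1) * |R1| := by
      rw [div_le_iff₀ hρ, Am_fst]
      calc ‖∑ i, s i • (vv (b i)).1‖ ≤ ∑ i, ‖s i • (vv (b i)).1‖ := norm_sum_le _ _
        _ ≤ ∑ _i : Fin (m + 1), ρ * (2 * |R1|) := by
            refine Finset.sum_le_sum fun i _ => ?_
            rw [norm_smul, norm_vv_fst, Real.norm_eq_abs]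
            have h3 : ‖b i‖ ≤ |R1| := (hb i).trans (le_abs_self _)
            have h4 := hs' i
            gcongr
        _ = _ := by
            rw [Finset.sum_const, Finset.card_univ, Fintype.card_fin, nsmul_eq_mul]
            push_cast
            ring
    have h2 : |(Am b s).2| / ρ ≤ (m + 1) := by
      rw [div_le_iff₀ hρ, Am_snd]
      calc |∑ i, s i| ≤ ∑ i, |s i| := Finset.abs_sum_le_sum_abs _ _
        _ ≤ ∑ _i : Fin (m + 1), ρ := Finset.sum_le_sum fun i _ => hs' i
        _ = _ := by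
            rw [Finset.sum_const, Finset.card_univ, Fintype.card_fin, nsmul_eq_mul]
            push_cast
            ring
    unfold kw gw
    rw [smul_zero, add_zero, Prod.fst_neg, Prod.snd_neg, norm_neg, abs_neg,
      ← ENNReal.ofReal_mul (by positivity), ← ENNReal.ofReal_one]
    apply ENNReal.ofReal_le_ofReal
    have h3 : (1 + ‖(Am b s).1‖ / ρ) ^ (m + 2) ≤ (1 + 2 * (m + 1) * |R1|) ^ (m + 2) := by
      gcongr
    have h4 : (1 + |(Am b s).2| / ρ) ^ (m + 2) ≤ (1 + ((m : ℝ) + 1)) ^ (m + 2) := by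
      gcongr
    have h5 : (1 + ‖(Am b s).1‖ / ρ) ^ (m + 2) * (1 + |(Am b s).2| / ρ) ^ (m + 2) ≤ D := by
      rw [hD]
      gcongr
    set P := (1 + ‖(Am b s).1‖ / ρ) ^ (m + 2) with hP
    set Q := (1 + |(Am b s).2| / ρ) ^ (m + 2) with hQ
    have hP0 : 0 < P := by rw [hP]; positivity
    have hQ0 : 0 < Q := by rw [hQ]; positivity
    have e1 : D * ρ ^ (m + 1) * ((ρ ^ m * ρ)⁻¹ * P⁻¹ * Q⁻¹) = D / (P * Q) := by
      rw [← pow_succ]
      field_simp
    rw [e1, le_div_iff₀ (by positivity), one_mul]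
    exact h5
  set g : X m → ℝ≥0∞ := fun z => f (x + z) * kw m ρ (-z) with hg
  have hgm : Measurable g :=
    (hf.comp (measurable_const.add measurable_id)).mul ((kw_meas m ρ).comp measurable_neg)
  have hcv : cv f (kw m ρ) x = ∫⁻ z, g z := by
    unfold cv
    rw [← lintegral_add_left_eq_self (fun z => f z * kw m ρ (x - z)) x]
    refine lintegral_congr fun z => ?_
    rw [hg]
    simp only
    congr 2
    abel
  set L := AmE hT with hL
  have hLm : Measurable (L : (Fin (m + 1) → ℝ) → X m) := L.continuous.measurable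
  have hmapH : (Measure.map L (volume : Measure (Fin (m + 1) → ℝ))).IsAddHaarMeasure :=
    L.isAddHaarMeasure_map volume
  obtain ⟨k, hk⟩ : ∃ k : ℝ≥0, Measure.map L (volume : Measure (Fin (m + 1) → ℝ)) =
      k • (volume : Measure (X m)) := ⟨_, Measure.isAddLeftInvariant_eq_smul _ _⟩
  have hkB : (k : ℝ≥0∞) * volume B ≤ ENNReal.ofReal ((2 * |Λ|) ^ (m + 1)) := by
    have e1 : (k : ℝ≥0∞) * volume B = Measure.map L (volume : Measure (Fin (m + 1) → ℝ)) B := by
      rw [hk]
      rfl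
    rw [e1, Measure.map_apply hLm Metric.isClosed_closedBall.measurableSet]
    calc volume (L ⁻¹' B) ≤ volume (Qc (m + 1) |Λ|) := by
          refine measure_mono fun s hs => ?_
          have h1 : ‖Am b s‖ ≤ 1 := by
            have h2 : L s ∈ B := hs
            rw [hB, mem_closedBall_zero_iff] at h2
            exact h2
          have h2 : ∀ i, |s i| ≤ |Λ| := by
            intro i
            calc |s i| ≤ Λ * ‖Am b s‖ := hT s i
              _ ≤ |Λ| * ‖Am b s‖ := by gcongr; exact le_abs_self _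
              _ ≤ |Λ| * 1 := by gcongr
              _ = |Λ| := mul_one _
          exact ⟨fun i => (abs_le.mp (h2 i)).1, fun i => (abs_le.mp (h2 i)).2⟩
      _ = ENNReal.ofReal ((2 * |Λ|) ^ (m + 1)) := by
          unfold Qc
          rw [Real.volume_Icc_pi]
          simp only [sub_neg_eq_add, Finset.prod_const, Finset.card_univ, Fintype.card_fin]
          rw [← ENNReal.ofReal_pow (by positivity), two_mul]
  have hk' : (k : ℝ≥0∞) ≤ ENNReal.ofReal ((2 * |Λ|) ^ (m + 1) / v) := by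
    rw [ENNReal.ofReal_div_of_pos hvpos, hv, ENNReal.ofReal_toReal hvtop]
    rw [ENNReal.le_div_iff_mul_le (Or.inl (Metric.measure_closedBall_pos volume 0 one_pos).ne')
      (Or.inl hvtop)]
    exact hkB
  calc ∫⁻ s in Qc (m + 1) ρ, f (x + Am b s)
      ≤ ∫⁻ s in Qc (m + 1) ρ, ENNReal.ofReal (D * ρ ^ (m + 1)) * g (L s) := by
        refine setLIntegral_mono' measurableSet_Icc fun s hs => ?_
        calc f (x + Am b s) = 1 * f (x + Am b s) := (one_mul _).symm
          _ ≤ (ENNReal.ofReal (D * ρ ^ (m + 1)) * kw m ρ (-(Am b s))) * f (x + Am b s) := by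
              gcongr
              exact hbound s hs
          _ = ENNReal.ofReal (D * ρ ^ (m + 1)) * g (Am b s) := by
              rw [hg]
              ring
    _ ≤ ∫⁻ s, ENNReal.ofReal (D * ρ ^ (m + 1)) * g (L s) := setLIntegral_le_lintegral _ _
    _ = ENNReal.ofReal (D * ρ ^ (m + 1)) * ∫⁻ s, g (L s) :=
        lintegral_const_mul _ (hgm.comp hLm)
    _ = ENNReal.ofReal (D * ρ ^ (m + 1)) * ((k : ℝ≥0∞) * ∫⁻ z, g z) := by
        rw [← lintegral_map hgm hLm, hk, lintegral_smul_measure]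
        rfl
    _ ≤ ENNReal.ofReal (D * ρ ^ (m + 1)) *
        (ENNReal.ofReal ((2 * |Λ|) ^ (m + 1) / v) * ∫⁻ z, g z) := by gcongr
    _ = ENNReal.ofReal (D * ((2 * |Λ|) ^ (m + 1) / v) * ρ ^ (m + 1)) * cv f (kw m ρ) x := by
        rw [hcv, ← mul_assoc, ← ENNReal.ofReal_mul (by positivity)]
        congr 2
        ring

end Pool.Agent.H91.BD
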