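import Pool.Agent.H93.BD.Targets

/-!
Polynomially decaying kernels on normed spaces (helper file for the rows WM, WC, WP, AKW).
-/

open MeasureTheory
open scoped ENNReal NNReal

namespace Pool.Agent.H91.BD

set_option linter.unusedSectionVars false

open Pool.Agent.H93.BD

section general

variable {V : Type*} [NormedAddCommGroup V] [NormedSpace ℝ V] [FiniteDimensional ℝ V]
  [MeasurableSpace V] [BorelSpace V] (μ : Measure V) [μ.IsAddHaarMeasure]

/-- the kernel `R^-d (1 + |x| / R)^-N` -/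
noncomputable def kk {V : Type*} [NormedAddCommGroup V] (d N : ℕ) (R : ℝ) (x : V) : ℝ≥0∞ :=
  ENNReal.ofReal ((R ^ d)⁻¹ * ((1 + ‖x‖ / R) ^ N)⁻¹)

theorem kk_meas (d N : ℕ) (R : ℝ) : Measurable (kk (V := V) d N R) := by
  unfold kk
  fun_prop

theorem kk_mass {d N : ℕ} (hd : Module.finrank ℝ V = d) (hN : d < N) :
    ∃ C : ℝ, 0 ≤ C ∧ ∀ R : ℝ, 0 < R → ∫⁻ x, kk d N R x ∂μ = ENNReal.ofReal C := by
  set g : V → ℝ≥0∞ := fun y => ENNReal.ofReal (((1 + ‖y‖) ^ N)⁻¹) with hg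
  have hgm : Measurable g := by
    rw [hg]; fun_prop
  have hfin : ∫⁻ y, g y ∂μ < ∞ := by
    have h := finite_integral_one_add_norm (E := V) (μ := μ) (r := (N : ℝ))
      (by rw [hd]; exact_mod_cast hN)
    refine lt_of_le_of_lt (lintegral_mono fun y => ?_) h
    apply ENNReal.ofReal_le_ofReal
    rw [Real.rpow_neg (by positivity), Real.rpow_natCast]
  refine ⟨(∫⁻ y, g y ∂μ).toReal, ENNReal.toReal_nonneg, fun R hR => ?_⟩
  rw [ENNReal.ofReal_toReal hfin.ne]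
  have h1 : ∀ x : V, kk d N R x = ENNReal.ofReal ((R ^ d)⁻¹) * g (R⁻¹ • x) := by
    intro x
    unfold kk
    rw [ENNReal.ofReal_mul (by positivity)]
    congr 1
    simp only [hg, norm_smul, norm_inv, Real.norm_of_nonneg hR.le]
    rw [div_eq_inv_mul]
  calc ∫⁻ x, kk d N R x ∂μ = ∫⁻ x, ENNReal.ofReal ((R ^ d)⁻¹) * g (R⁻¹ • x) ∂μ :=
        lintegral_congr h1
    _ = ENNReal.ofReal ((R ^ d)⁻¹) * ∫⁻ x, g (R⁻¹ • x) ∂μ := by
        exact lintegral_const_mul _ (hgm.comp (measurable_const_smul (R⁻¹)))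
    _ = ENNReal.ofReal ((R ^ d)⁻¹) * ∫⁻ y, g y ∂(Measure.map (R⁻¹ • ·) μ) := by
        rw [lintegral_map hgm (measurable_const_smul _)]
    _ = ∫⁻ y, g y ∂μ := by
        rw [Measure.map_addHaar_smul μ (inv_ne_zero hR.ne'), lintegral_smul_measure, hd,
          smul_eq_mul, ← mul_assoc, ← ENNReal.ofReal_mul (by positivity)]
        have : (R ^ d)⁻¹ * |(R⁻¹ ^ d)⁻¹| = 1 := by
          rw [inv_pow, inv_inv, abs_of_pos (by positivity), inv_mul_cancel₀ (by positivity)]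
        rw [this, ENNReal.ofReal_one, one_mul]

theorem kk_half {d N : ℕ} {R : ℝ} (hR : 0 < R) {x y : V} (h : ‖x‖ ≤ 2 * ‖y‖ + R) :
    kk d N R y ≤ ENNReal.ofReal (2 ^ N) * kk d N R x := by
  unfold kk
  rw [← ENNReal.ofReal_mul (by positivity)]
  apply ENNReal.ofReal_le_ofReal
  have h1 : 1 + ‖x‖ / R ≤ 2 * (1 + ‖y‖ / R) := by
    have : ‖x‖ / R ≤ (2 * ‖y‖ + R) / R := by gcongr
    rw [add_div, div_self hR.ne', mul_div_assoc] at this
    linarith
  have h2 : (1 + ‖x‖ / R) ^ N ≤ 2 ^ N * (1 + ‖y‖ / R) ^ N := by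
    rw [← mul_pow]
    exact pow_le_pow_left₀ (by positivity) h1 N
  have h3 : ((1 + ‖y‖ / R) ^ N)⁻¹ ≤ 2 ^ N * ((1 + ‖x‖ / R) ^ N)⁻¹ := by
    rw [← div_eq_mul_inv, le_div_iff₀ (by positivity), inv_mul_le_iff₀ (by positivity)]
    linarith
  calc (R ^ d)⁻¹ * ((1 + ‖y‖ / R) ^ N)⁻¹ ≤ (R ^ d)⁻¹ * (2 ^ N * ((1 + ‖x‖ / R) ^ N)⁻¹) := by
        gcongr
    _ = _ := by ring

theorem kk_scale {d N : ℕ} (hN : d ≤ N) {R R' : ℝ} (hR' : 0 < R') (hRR : R' ≤ R) {x : V}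
    (h : R ≤ ‖x‖) : kk d N R' x ≤ ENNReal.ofReal (2 ^ N) * kk d N R x := by
  have hR : 0 < R := lt_of_lt_of_le hR' hRR
  unfold kk
  rw [← ENNReal.ofReal_mul (by positivity)]
  apply ENNReal.ofReal_le_ofReal
  have e : ∀ r : ℝ, 0 < r → (r ^ d)⁻¹ * ((1 + ‖x‖ / r) ^ N)⁻¹ = r ^ (N - d) / (r + ‖x‖) ^ N := by
    intro r hr
    have h1 : (1 + ‖x‖ / r) ^ N = (r + ‖x‖) ^ N / r ^ N := by
      rw [← div_pow]; congr 1; field_simp
    rw [h1, inv_div]
    have h2 : r ^ N = r ^ d * r ^ (N - d) := by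
      rw [← pow_add]; congr 1; omega
    rw [h2]
    field_simp
  rw [e R' hR', e R hR]
  have h1 : R + ‖x‖ ≤ 2 * (R' + ‖x‖) := by linarith
  have h2 : (R + ‖x‖) ^ N ≤ 2 ^ N * (R' + ‖x‖) ^ N := by
    rw [← mul_pow]
    exact pow_le_pow_left₀ (by positivity) h1 N
  have h3 : R' ^ (N - d) ≤ R ^ (N - d) := pow_le_pow_left₀ hR'.le hRR _
  rw [← mul_div_assoc, div_le_div_iff₀ (by positivity) (by positivity)]
  calc R' ^ (N - d) * (R + ‖x‖) ^ N ≤ R ^ (N - d) * (2 ^ N * (R' + ‖x‖) ^ N) := by gcongr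
    _ = _ := by ring

theorem kk_conv {d N : ℕ} (hd : Module.finrank ℝ V = d) (hN : d < N) :
    ∃ C : ℝ, 0 ≤ C ∧ ∀ R R' : ℝ, 0 < R' → R' ≤ R → ∀ x : V,
      ∫⁻ z, kk d N R' z * kk d N R (x - z) ∂μ ≤ ENNReal.ofReal C * kk d N R x := by
  obtain ⟨C, hC, hmass⟩ := kk_mass μ hd hN
  refine ⟨2 ^ N * 2 ^ N * (C + C), by positivity, fun R R' hR' hRR x => ?_⟩
  have hR : 0 < R := lt_of_lt_of_le hR' hRR
  have h2N : (1 : ℝ≥0∞) ≤ ENNReal.ofReal (2 ^ N) := by
    rw [← ENNReal.ofReal_one]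
    exact ENNReal.ofReal_le_ofReal (one_le_pow₀ (by norm_num))
  have key : ∀ z : V, kk d N R' z * kk d N R (x - z) ≤
      ENNReal.ofReal (2 ^ N) * ENNReal.ofReal (2 ^ N) * kk d N R x *
        (kk d N R' z + kk d N R (x - z)) := by
    intro z
    have hb : ENNReal.ofReal (2 ^ N) * kk d N R x ≤
        ENNReal.ofReal (2 ^ N) * ENNReal.ofReal (2 ^ N) * kk d N R x := by
      calc ENNReal.ofReal (2 ^ N) * kk d N R x = 1 * (ENNReal.ofReal (2 ^ N) * kk d N R x) := by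
            rw [one_mul]
        _ ≤ ENNReal.ofReal (2 ^ N) * (ENNReal.ofReal (2 ^ N) * kk d N R x) := by gcongr
        _ = _ := by rw [mul_assoc]
    have htri : ‖x‖ ≤ ‖z‖ + ‖x - z‖ := by
      calc ‖x‖ = ‖z + (x - z)‖ := by congr 1; abel
        _ ≤ _ := norm_add_le _ _
    by_cases h1 : ‖x‖ ≤ 2 * ‖x - z‖ + R
    · have h2 := kk_half (d := d) (N := N) hR h1
      calc kk d N R' z * kk d N R (x - z) ≤ kk d N R' z * (ENNReal.ofReal (2 ^ N) * kk d N R x) := by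
            gcongr
        _ ≤ kk d N R' z * (ENNReal.ofReal (2 ^ N) * ENNReal.ofReal (2 ^ N) * kk d N R x) := by
            gcongr
        _ ≤ (kk d N R' z + kk d N R (x - z)) *
            (ENNReal.ofReal (2 ^ N) * ENNReal.ofReal (2 ^ N) * kk d N R x) := by
            gcongr
            exact le_self_add
        _ = _ := by ring
    · push Not at h1
      have hxR : R ≤ ‖x‖ := by
        have := norm_nonneg (x - z)
        linarith
      have hz : ‖x‖ ≤ 2 * ‖z‖ + R' := by linarith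
      have h2 := kk_half (d := d) (N := N) hR' hz
      have h3 := kk_scale (d := d) (N := N) hN.le hR' hRR hxR
      calc kk d N R' z * kk d N R (x - z)
          ≤ (ENNReal.ofReal (2 ^ N) * kk d N R' x) * kk d N R (x - z) := by gcongr
        _ ≤ (ENNReal.ofReal (2 ^ N) * (ENNReal.ofReal (2 ^ N) * kk d N R x)) *
            kk d N R (x - z) := by gcongr
        _ ≤ (ENNReal.ofReal (2 ^ N) * (ENNReal.ofReal (2 ^ N) * kk d N R x)) *
            (kk d N R' z + kk d N R (x - z)) := by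
            gcongr
            exact le_add_self
        _ = _ := by ring
  have hm1 : Measurable fun z : V => kk d N R (x - z) :=
    (kk_meas d N R).comp (measurable_const.sub measurable_id)
  have hsub : ∫⁻ z, kk d N R (x - z) ∂μ = ENNReal.ofReal C := by
    rw [lintegral_sub_left_eq_self (fun z => kk d N R z) x]
    exact hmass R hR
  calc ∫⁻ z, kk d N R' z * kk d N R (x - z) ∂μ
      ≤ ∫⁻ z, ENNReal.ofReal (2 ^ N) * ENNReal.ofReal (2 ^ N) * kk d N R x *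
        (kk d N R' z + kk d N R (x - z)) ∂μ := lintegral_mono key
    _ = ENNReal.ofReal (2 ^ N) * ENNReal.ofReal (2 ^ N) * kk d N R x *
        (ENNReal.ofReal C + ENNReal.ofReal C) := by
        have hm2 : Measurable fun z : V => kk d N R' z + kk d N R (x - z) :=
          (kk_meas d N R').add hm1
        rw [lintegral_const_mul _ hm2, lintegral_add_left (kk_meas d N R'), hmass R' hR', hsub]
    _ = ENNReal.ofReal (2 ^ N * 2 ^ N * (C + C)) * kk d N R x := by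
        rw [ENNReal.ofReal_mul (by positivity), ENNReal.ofReal_mul (by positivity),
          ENNReal.ofReal_add hC hC]
        ring

end general

theorem finrank_E (m : ℕ) : Module.finrank ℝ (E m) = m := by
  simp

theorem gw_eq (m N : ℕ) {r1 r2 : ℝ} (h1 : 0 < r1) (h2 : 0 < r2) (c : E m) (x : X m) :
    gw m N r1 r2 c x = kk m N r1 (x.1 + (2 * x.2) • c) * kk 1 N r2 x.2 := by
  unfold gw kk
  rw [← ENNReal.ofReal_mul (by positivity), Real.norm_eq_abs]
  congr 1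
  rw [pow_one, mul_inv]
  ring

theorem kw_eq (m : ℕ) {R : ℝ} (h : 0 < R) (x : X m) :
    kw m R x = kk m (m + 2) R x.1 * kk 1 (m + 2) R x.2 := by
  unfold kw
  rw [gw_eq m (m + 2) h h, smul_zero, add_zero]

theorem gw_meas (m N : ℕ) (r1 r2 : ℝ) (c : E m) : Measurable (gw m N r1 r2 c) := by
  unfold gw
  fun_prop

theorem kw_meas (m : ℕ) (R : ℝ) : Measurable (kw m R) := gw_meas _ _ _ _ _

theorem pk_meas (m : ℕ) (S : ℝ) (c : E m) : Measurable (pk m S c) := gw_meas _ _ _ _ _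

/-- slow variation of the ball weight -/
theorem kw_slow (m : ℕ) (R : ℝ) (hR : 0 < R) (x z : X m) :
    kw m R (x + z) ≤ ENNReal.ofReal ((1 + ‖z.1‖ / R) ^ (m + 2) * (1 + |z.2| / R) ^ (m + 2)) *
      kw m R x := by
  have key : ∀ {W : Type} [NormedAddCommGroup W] (d N : ℕ) (a b : W),
      kk d N R (a + b) ≤ ENNReal.ofReal ((1 + ‖b‖ / R) ^ N) * kk d N R a := by
    intro W _ d N a b
    unfold kk
    rw [← ENNReal.ofReal_mul (by positivity)]
    apply ENNReal.ofReal_le_ofReal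
    have h0 : ‖a‖ ≤ ‖a + b‖ + ‖b‖ := by
      calc ‖a‖ = ‖(a + b) - b‖ := by congr 1; abel
        _ ≤ _ := norm_sub_le _ _
    have h1 : 1 + ‖a‖ / R ≤ (1 + ‖b‖ / R) * (1 + ‖a + b‖ / R) := by
      have h2 : ‖a‖ / R ≤ ‖a + b‖ / R + ‖b‖ / R := by
        rw [← add_div]; gcongr
      have h3 : 0 ≤ ‖b‖ / R * (‖a + b‖ / R) := by positivity
      nlinarith
    have h2 : (1 + ‖a‖ / R) ^ N ≤ (1 + ‖b‖ / R) ^ N * (1 + ‖a + b‖ / R) ^ N := by
      rw [← mul_pow]
      exact pow_le_pow_left₀ (by positivity) h1 N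
    have h3 : ((1 + ‖a + b‖ / R) ^ N)⁻¹ ≤ (1 + ‖b‖ / R) ^ N * ((1 + ‖a‖ / R) ^ N)⁻¹ := by
      rw [← div_eq_mul_inv, le_div_iff₀ (by positivity), inv_mul_le_iff₀ (by positivity)]
      linarith
    calc (R ^ d)⁻¹ * ((1 + ‖a + b‖ / R) ^ N)⁻¹
        ≤ (R ^ d)⁻¹ * ((1 + ‖b‖ / R) ^ N * ((1 + ‖a‖ / R) ^ N)⁻¹) := by gcongr
      _ = _ := by ring
  rw [kw_eq m hR, kw_eq m hR, ENNReal.ofReal_mul (by positivity), Prod.fst_add, Prod.snd_add]
  calc kk m (m + 2) R (x.1 + z.1) * kk 1 (m + 2) R (x.2 + z.2)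
      ≤ (ENNReal.ofReal ((1 + ‖z.1‖ / R) ^ (m + 2)) * kk m (m + 2) R x.1) *
        (ENNReal.ofReal ((1 + ‖z.2‖ / R) ^ (m + 2)) * kk 1 (m + 2) R x.2) := by
        gcongr
        · exact key m (m + 2) x.1 z.1
        · exact key 1 (m + 2) x.2 z.2
    _ = _ := by
        rw [Real.norm_eq_abs]
        ring

end Pool.Agent.H91.BD
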